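import Pool.Agent.H619.BB.FIN2

/-!
# MP_43065d_gt: the volume of the Blaschke body, an upper bound in every dimension

`(2n)!² |∇K|^(n-1) ≤ n! (3n)! |K|^(n-1)` for all convex bodies `K` in `ℝ^n`, `n ≥ 1`; the constant
`n! (3n)! / (2n)!²` is less than `(27/16)^n`. The conjecture is `|∇K| ≤ c_n |K|` with equality exactly for
simplices.

Proof. By a library theorem (second moment of `|K ∩ (c - K)|`) there is a `c` with
`|K ∩ (c - K)| ≥ (2n)!² / (n! (3n)!) |K|`. Let `Z = K ∩ (c - K) - c/2`. As `Z` is symmetric and contained
in `K - c/2`, the derivative of `|∇K + εZ|` at `0` is equal to that of `|K + εZ|`, at most `n |K|`; by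
the Brunn-Minkowski inequality it is at least `n |∇K|^((n-1)/n) |Z|^(1/n)`.
-/

set_option autoImplicit false

open MeasureTheory Set

open scoped Pointwise

noncomputable section

namespace Pool.Agent.Results.MP_43065d_gt.AllDimensions

/-- `n`-dimensional Euclidean space -/
abbrev E (n : ℕ) : Type := EuclideanSpace ℝ (Fin n)

/-- the volume as a real number -/
def vol {n : ℕ} (S : Set (E n)) : ℝ := (volume S).toReal

/-- convex bodies: compact convex sets with nonempty interior -/
def IsConvexBody {n : ℕ} (K : Set (E n)) : Prop :=
  IsCompact K ∧ Convex ℝ K ∧ (interior K).Nonempty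

/-- `B` is the Blaschke body `∇K` of `K`: an origin-symmetric convex body whose surface area measure
is the mean of those of `K` and `-K`. The surface area measures are compared through their integrals
against the support functions of compact convex sets `L`: the integral of the support function of `L`
against the surface area measure of `K` is the right derivative of `vol (K + ε L)` at `ε = 0`. -/
def IsBlaschkeBody {n : ℕ} (K B : Set (E n)) : Prop :=
  IsConvexBody B ∧ -B = B ∧ ∀ L : Set (E n), IsCompact L → Convex ℝ L → L.Nonempty →
    HasDerivWithinAt (fun ε : ℝ => vol (B + ε • L) - (vol (K + ε • L) + vol (-K + ε • L)) / 2)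
      0 (Ici 0) 0

/-- **Main theorem.** -/
theorem result : ∀ (n : ℕ) (K B : Set (E n)), 1 ≤ n → IsConvexBody K → IsBlaschkeBody K B →
    ((2 * n).factorial : ℝ) ^ 2 * vol B ^ (n - 1) ≤
      ((n.factorial : ℝ) * (3 * n).factorial) * vol K ^ (n - 1) :=
  fun _ _ _ hn hK hB => Pool.Agent.H619.BB.FIN2.partA hn hK hB

end Pool.Agent.Results.MP_43065d_gt.AllDimensions

end
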