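import Pool.Agent.H619.BB.FIN

/-!
# MP_43065d_gt: the volume of the Blaschke body in `ℝ³`

`|∇K|² ≤ (200/77) |K|²` for all convex bodies `K` in `ℝ³`, and `|∇T|² = 2 |T|²` for tetrahedra. So the
best constant `c` in `|∇K| ≤ c |K|` satisfies `√2 ≤ c ≤ 1.6117`, and the conjecture would be `c = √2`.

Proof. As in `AllDimensions`, `|Z| |∇K|² ≤ |K|³` for every symmetric convex body `Z` of which a
translate is contained in `K`. By MP_0069fb_gt there is a `Z` with `|Z| ≥ 0.385 |K|`. For a tetrahedron
the largest `Z` has the volume `|T| / 2`. The converse inequality `|T|² ≤ |∇T|² / 2`: let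
`T_ε = T ~ ε∇T = {x : x + ε∇T ⊆ T}`, a tetrahedron homothetic to `T`; then
`|T_ε| ≥ 2 |T| - |T + ε∇T|` and `(|T_ε|/2)^(1/3) + ε |∇T|^(1/3) ≤ (|T|/2)^(1/3)`. Let `ε → 0`.
-/

set_option autoImplicit false

open MeasureTheory Set

open scoped Pointwise

noncomputable section

namespace Pool.Agent.Results.MP_43065d_gt.DimensionThree

/-- `n`-dimensional Euclidean space -/
abbrev E (n : ℕ) : Type := EuclideanSpace ℝ (Fin n)

/-- the volume as a real number -/
def vol {n : ℕ} (S : Set (E n)) : ℝ := (volume S).toReal

/-- convex bodies: compact convex sets with nonempty interior -/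
def IsConvexBody {n : ℕ} (K : Set (E n)) : Prop :=
  IsCompact K ∧ Convex ℝ K ∧ (interior K).Nonempty

/-- `B` is the Blaschke body `∇K` of `K`: an origin-symmetric convex body whose surface area measure
is the mean of those of `K` and `-K`. The surface area measures are compared through their integrals
against the support functions of compact convex sets `L`: the integral of the support function of `L`
against the surface area measure of `K` is the right derivative of `vol (K + ε L)` at `ε = 0`. -/
def IsBlaschkeBody {n : ℕ} (K B : Set (E n)) : Prop :=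
  IsConvexBody B ∧ -B = B ∧ ∀ L : Set (E n), IsCompact L → Convex ℝ L → L.Nonempty →
    HasDerivWithinAt (fun ε : ℝ => vol (B + ε • L) - (vol (K + ε • L) + vol (-K + ε • L)) / 2)
      0 (Ici 0) 0

/-- **Main theorem.** -/
theorem result :
    (∀ K B : Set (E 3), IsConvexBody K → IsBlaschkeBody K B →
      77 * vol B ^ 2 ≤ 200 * vol K ^ 2) ∧
    (∀ (p : Fin 4 → E 3) (B : Set (E 3)), AffineIndependent ℝ p →
      IsBlaschkeBody (convexHull ℝ (range p)) B →
      vol B ^ 2 = 2 * vol (convexHull ℝ (range p)) ^ 2) :=
  ⟨fun _ _ hK hB => Pool.Agent.H619.BB.FIN.partB hK hB,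
    fun p B hp hB => Pool.Agent.H619.BB.FIN.partT p B hp hB⟩

end Pool.Agent.Results.MP_43065d_gt.DimensionThree

end
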