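import Pool.Agent.H619.BB.FIN

/-!
# MP_43065d_gt: the extremal bodies are those of the largest symmetric part

Let `m(K) = max_c |K ∩ (c - K)|`. If `m(K) ≥ r |K|` for all convex bodies in `ℝ^n`, then
`r |∇K|^(n-1) ≤ |K|^(n-1)` for all convex bodies, with equality exactly for the bodies with
`m(K) = r |K|`. In particular, if simplices are exactly the bodies with the smallest `m(K) / |K|`, the
answer to the question is yes.

Proof. `Z = K ∩ (c - K) - c/2` is symmetric, so `n |∇K|^((n-1)/n) |Z|^(1/n)` is at most the derivative of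
`|∇K + εZ|`, which is that of `|K + εZ|`, at most `n |K|`. So `m(K) |∇K|^(n-1) ≤ |K|^n`. For the converse
inequality for extremal bodies of `m(K) / |K|` let `K_ε = K ~ ε∇K = {x : x + ε∇K ⊆ K}`. Then
`|K_ε| ≥ 2 |K| - |K + ε∇K|` and `m(K_ε)^(1/n) + ε |∇K|^(1/n) ≤ m(K)^(1/n)`; let `ε → 0`.
-/

set_option autoImplicit false

open MeasureTheory Set

open scoped Pointwise

noncomputable section

namespace Pool.Agent.Results.MP_43065d_gt.ExtremalBodies

/-- `n`-dimensional Euclidean space -/
abbrev E (n : ℕ) : Type := EuclideanSpace ℝ (Fin n)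

/-- the volume as a real number -/
def vol {n : ℕ} (S : Set (E n)) : ℝ := (volume S).toReal

/-- convex bodies: compact convex sets with nonempty interior -/
def IsConvexBody {n : ℕ} (K : Set (E n)) : Prop :=
  IsCompact K ∧ Convex ℝ K ∧ (interior K).Nonempty

/-- `B` is the Blaschke body `∇K` of `K`: an origin-symmetric convex body whose surface area measure
is the mean of those of `K` and `-K`. The surface area measures are compared through their integrals
against the support functions of compact convex sets `L`: the integral of the support function of `L`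
against the surface area measure of `K` is the right derivative of `vol (K + ε L)` at `ε = 0`. -/
def IsBlaschkeBody {n : ℕ} (K B : Set (E n)) : Prop :=
  IsConvexBody B ∧ -B = B ∧ ∀ L : Set (E n), IsCompact L → Convex ℝ L → L.Nonempty →
    HasDerivWithinAt (fun ε : ℝ => vol (B + ε • L) - (vol (K + ε • L) + vol (-K + ε • L)) / 2)
      0 (Ici 0) 0

/-- `K ∩ (c - K)`, the part of `K` which is symmetric about the point `c / 2` -/
def symPart {n : ℕ} (c : E n) (K : Set (E n)) : Set (E n) := {x | x ∈ K ∧ c - x ∈ K}

/-- **Main theorem.** -/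
theorem result :
    ∀ (n : ℕ) (r : ℝ), 1 ≤ n →
      (∀ K : Set (E n), IsConvexBody K → ∃ c : E n, r * vol K ≤ vol (symPart c K)) →
      ∀ K B : Set (E n), IsConvexBody K → IsBlaschkeBody K B →
        r * vol B ^ (n - 1) ≤ vol K ^ (n - 1) ∧
        (r * vol B ^ (n - 1) = vol K ^ (n - 1) ↔ ∀ c : E n, vol (symPart c K) ≤ r * vol K) :=
  fun _ _ hn hr _ _ hK hB => Pool.Agent.H619.BB.FIN.partD hn hr hK hB

end Pool.Agent.Results.MP_43065d_gt.ExtremalBodies

end
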