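import Pool.Agent.H619.BB.FIN

/-!
# MP_43065d_gt: the sharp inequality for polytopes with at most `n + 2` vertices

`|∇K| / |K| ≤ |∇T| / |T|` for every polytope `K` in `ℝ^n` with at most `n + 2` vertices and every
simplex `T`, for all `n ≥ 2`. This is the conjectured inequality with the sharp constant.

Proof. Let `s(K)` be the volume of the part of `K` symmetric about its centroid. We have
`s(K) |∇K|^(n-1) ≤ |K|^n` for every `K` (see `AllDimensions`), and `s(T) / |T| ≤ s(K) / |K|` for
polytopes with at most `n + 2` vertices (MP_e508a7_gt.FewVertices). It remains that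
`s(T) |∇T|^(n-1) = |T|^n`. The part of `T` symmetric about the centroid is the largest symmetric part.
Let `T_ε = T ~ ε∇T`, a simplex homothetic to `T`; then `|T_ε| ≥ 2 |T| - |T + ε∇T|` and
`s(T_ε)^(1/n) + ε |∇T|^(1/n) ≤ s(T)^(1/n)`. Let `ε → 0`.
-/

set_option autoImplicit false

open MeasureTheory Set

open scoped Pointwise

noncomputable section

namespace Pool.Agent.Results.MP_43065d_gt.FewVertices

/-- `n`-dimensional Euclidean space -/
abbrev E (n : ℕ) : Type := EuclideanSpace ℝ (Fin n)

/-- the volume as a real number -/
def vol {n : ℕ} (S : Set (E n)) : ℝ := (volume S).toReal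

/-- convex bodies: compact convex sets with nonempty interior -/
def IsConvexBody {n : ℕ} (K : Set (E n)) : Prop :=
  IsCompact K ∧ Convex ℝ K ∧ (interior K).Nonempty

/-- `B` is the Blaschke body `∇K` of `K`: an origin-symmetric convex body whose surface area measure
is the mean of those of `K` and `-K`. The surface area measures are compared through their integrals
against the support functions of compact convex sets `L`: the integral of the support function of `L`
against the surface area measure of `K` is the right derivative of `vol (K + ε L)` at `ε = 0`. -/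
def IsBlaschkeBody {n : ℕ} (K B : Set (E n)) : Prop :=
  IsConvexBody B ∧ -B = B ∧ ∀ L : Set (E n), IsCompact L → Convex ℝ L → L.Nonempty →
    HasDerivWithinAt (fun ε : ℝ => vol (B + ε • L) - (vol (K + ε • L) + vol (-K + ε • L)) / 2)
      0 (Ici 0) 0

/-- **Main theorem.** -/
theorem result :
    ∀ (n : ℕ) (w : Fin (n + 2) → E n) (v : Fin (n + 1) → E n) (B B' : Set (E n)), 2 ≤ n →
      (interior (convexHull ℝ (range w))).Nonempty → AffineIndependent ℝ v →
      IsBlaschkeBody (convexHull ℝ (range w)) B → IsBlaschkeBody (convexHull ℝ (range v)) B' →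
      vol B * vol (convexHull ℝ (range v)) ≤ vol B' * vol (convexHull ℝ (range w)) :=
  fun _ w v B B' hn hw hv hB hB' => Pool.Agent.H619.BB.FIN.partC hn w v B B' hw hv hB hB'

end Pool.Agent.Results.MP_43065d_gt.FewVertices

end
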